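import Pool.Agent.Mg.Fda2386.G63c981

/-! Partitions into ovoids of the quadrics over finite fields of characteristic three. -/

open Pool.Agent.MP_da2386_co

theorem Pool.Agent.Results.MP_da2386_co.CharThree.result {F V : Type*} [Field F] [Finite F]
    [CharP F 3] [AddCommGroup V] [Module F V] [FiniteDimensional F V] (Q : QuadraticForm F V)
    (hQ : Q.Nondegenerate) (r : ℕ) (hr : HasWittIndex Q r) (h2 : 2 ≤ r)
    (h : HasOvoidPartition Q) :
    (Module.finrank F V = 4 ∧ r = 2) ∨ (Module.finrank F V = 5 ∧ r = 2) ∨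
      (Module.finrank F V = 6 ∧ r = 3) ∨ (Module.finrank F V = 8 ∧ r = 4) :=
  char_three hQ.radical_eq_bot hr h2 h
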