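import Pool.Agent.Mg.Fda2386.G087e2f

/-! Partitions into ovoids of the quadrics over finite fields of even order: the full list. -/

open Pool.Agent.MP_da2386_co

theorem Pool.Agent.Results.MP_da2386_co.EvenOrder.result {F V : Type*} [Field F] [Finite F]
    [CharP F 2] [AddCommGroup V] [Module F V] [FiniteDimensional F V] (Q : QuadraticForm F V)
    (hQ : Q.Nondegenerate) (r : ℕ) (hr : HasWittIndex Q r) (h2 : 2 ≤ r) :
    HasOvoidPartition Q ↔ (Module.finrank F V = 2 * r ∧ r ≤ 3) :=
  char_two hQ.radical_eq_bot hr h2
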