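import Pool.Agent.MP_da2386_co.Seven

/-! The hyperbolic quadric of rank four over the field with three elements is partitioned
by ovoids. -/

open Pool.Agent.MP_da2386_co

theorem Pool.Agent.Results.MP_da2386_co.HyperbolicSevenThree.result {F V : Type*} [Field F]
    [Finite F] [AddCommGroup V] [Module F V] [FiniteDimensional F V] (hF : Nat.card F = 3)
    (Q : QuadraticForm F V) (hQ : Q.Nondegenerate) (hV : Module.finrank F V = 8)
    (hr : HasWittIndex Q 4) : HasOvoidPartition Q :=
  Seven.partition_seven hF hQ.radical_eq_bot hV hr
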